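import Pool.Agent.Helper75.OE.GoalsA

/-!
Project OE (MP_fc0446_an), packet LLOC: the length of a run depends only on the side.
-/

namespace Pool.Agent.Helper98.OE

open Pool.Agent.Helper73.OE Pool.Agent.Helper73.OE.Sys

/-- Packet LLOC. -/
theorem lloc : Pool.Agent.Helper75.OE.A_LLOC := by
  intro H S L _ X O O' v p y f g hy hM hg hO r
  induction r generalizing v p y with
  | zero => simp only [Sys.Long]
  | succ r ih =>
    have hgv : g v = f v := hg v (X.self_mem_Sd v p)
    have hs : (f v).symm y ≠ p := by
      intro h
      apply hy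
      rw [← h, Equiv.apply_symm_apply]
    have hsub := X.branch_subset (v := v) hs
    have hnb : X.nb v ((f v).symm y) ∈ X.Sd v p := hsub (X.self_mem_Sd _ _)
    simp only [Sys.Long]
    rw [hgv, hO v ((f v).symm y) (X.self_mem_Sd v p) hnb]
    refine and_congr_right fun hOv => ?_
    apply ih
    · have hm : X.Mt f v ((f v).symm y) := hM v _ (X.self_mem_Sd v p) hnb hOv
      unfold Sys.Mt at hm
      rw [Equiv.apply_symm_apply] at hm
      rw [hm]
      intro h
      apply hy
      have h2 := congrArg X.tau h
      rw [X.tau_tau, X.tau_tau] at h2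
      exact h2.symm
    · intro z t hz hzt hOz
      exact hM z t (hsub hz) (hsub hzt) hOz
    · intro z hz
      exact hg z (hsub hz)
    · intro z t hz hzt
      exact hO z t (hsub hz) (hsub hzt)

end Pool.Agent.Helper98.OE
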